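import Pool.Agent.Helper74.HG.Goals

/-!
# Packet HG-ROOT (MP_aa7fc1_ag): `-1` is a root of the Bernstein-Sato polynomial
-/

set_option autoImplicit false

namespace Pool.Agent.Helper75.HG.ROOT

open MvPolynomial Pool.Agent.Helper74.HG

variable {σ : Type}

/-- Good functions: `v(M) f^m = g(M) f^M`. -/
def Gd (f : MvPolynomial σ ℂ) (v : ℕ → MvPolynomial σ ℂ) : Prop :=
  ∃ (m : ℕ) (g : Polynomial (MvPolynomial σ ℂ)), ∀ M : ℕ,
    v M * f ^ m = g.eval (M : MvPolynomial σ ℂ) * f ^ M

/-- The coefficientwise derivative. -/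
lemma deriv_eval (i : σ) (g : Polynomial (MvPolynomial σ ℂ)) :
    ∃ g' : Polynomial (MvPolynomial σ ℂ), ∀ M : ℕ,
      pderiv i (g.eval (M : MvPolynomial σ ℂ)) = g'.eval (M : MvPolynomial σ ℂ) := by
  induction g using Polynomial.induction_on' with
  | add p q hp hq =>
    obtain ⟨p', hp'⟩ := hp
    obtain ⟨q', hq'⟩ := hq
    exact ⟨p' + q', fun M => by rw [Polynomial.eval_add, map_add, hp', hq', Polynomial.eval_add]⟩
  | monomial n a =>
    refine ⟨Polynomial.monomial n (pderiv i a), fun M => ?_⟩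
    rw [Polynomial.eval_monomial, Polynomial.eval_monomial, Derivation.leibniz, ← Nat.cast_pow,
      Derivation.map_natCast, smul_zero, zero_add, smul_eq_mul, mul_comm]

lemma gd_add {f : MvPolynomial σ ℂ} {v w : ℕ → MvPolynomial σ ℂ} (hv : Gd f v) (hw : Gd f w) :
    Gd f (fun M => v M + w M) := by
  obtain ⟨m, g, h⟩ := hv
  obtain ⟨m', g', h'⟩ := hw
  refine ⟨m + m', g * Polynomial.C (f ^ m') + g' * Polynomial.C (f ^ m), fun M => ?_⟩
  rw [Polynomial.eval_add, Polynomial.eval_mul, Polynomial.eval_mul, Polynomial.eval_C,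
    Polynomial.eval_C]
  linear_combination f ^ m' * h M + f ^ m * h' M

lemma gd_mul {f : MvPolynomial σ ℂ} {v : ℕ → MvPolynomial σ ℂ} (hv : Gd f v)
    (u : Polynomial (MvPolynomial σ ℂ)) :
    Gd f (fun M => u.eval (M : MvPolynomial σ ℂ) * v M) := by
  obtain ⟨m, g, h⟩ := hv
  refine ⟨m, u * g, fun M => ?_⟩
  rw [Polynomial.eval_mul]
  linear_combination u.eval (M : MvPolynomial σ ℂ) * h M

lemma gd_deriv {f : MvPolynomial σ ℂ} {v : ℕ → MvPolynomial σ ℂ} (hv : Gd f v) (i : σ) :
    Gd f (fun M => pderiv i (v M)) := by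
  obtain ⟨m, g, h⟩ := hv
  obtain ⟨g', hg'⟩ := deriv_eval i g
  refine ⟨m + 1, Polynomial.C f * g' + Polynomial.X * Polynomial.C (pderiv i f) * g -
    Polynomial.C ((m : MvPolynomial σ ℂ) * pderiv i f) * g, fun M => ?_⟩
  have h1 := congrArg (pderiv i) (h M)
  rw [Derivation.leibniz, Derivation.leibniz, Derivation.leibniz_pow, Derivation.leibniz_pow,
    hg'] at h1
  simp only [smul_eq_mul, nsmul_eq_mul] at h1
  have h2 : (m : MvPolynomial σ ℂ) * (f ^ (m - 1) * pderiv i f) * f =
      (m : MvPolynomial σ ℂ) * (f ^ m * pderiv i f) := by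
    rcases m with _ | m
    · simp
    · rw [Nat.add_sub_cancel, pow_succ]
      ring
  have h3 : (M : MvPolynomial σ ℂ) * (f ^ (M - 1) * pderiv i f) * f =
      (M : MvPolynomial σ ℂ) * (f ^ M * pderiv i f) := by
    rcases M with _ | M
    · simp
    · rw [Nat.add_sub_cancel, pow_succ]
      ring
  simp only [Polynomial.eval_add, Polynomial.eval_sub, Polynomial.eval_mul, Polynomial.eval_C,
    Polynomial.eval_X]
  have h4 := h M
  linear_combination f * h1 - v M * h2 + g.eval (M : MvPolynomial σ ℂ) * h3 -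
    (m : MvPolynomial σ ℂ) * pderiv i f * h4

/-- Good functions are preserved by the operators. -/
lemma gd_op {f : MvPolynomial σ ℂ} {P : ℂ → Module.End ℂ (MvPolynomial σ ℂ)} (hP : P ∈ DS σ) :
    ∀ v : ℕ → MvPolynomial σ ℂ, Gd f v → Gd f (fun M => P ((M : ℂ) - 1) (v M)) := by
  unfold DS at hP
  induction hP using Algebra.adjoin_induction with
  | mem P hP =>
    intro v hv
    rcases hP with (⟨i, rfl⟩ | ⟨i, rfl⟩) | hP
    · have h := gd_mul hv (Polynomial.C (X i : MvPolynomial σ ℂ))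
      simpa using h
    · exact gd_deriv hv i
    · rw [Set.mem_singleton_iff] at hP
      subst hP
      have h := gd_mul hv (Polynomial.X - 1 : Polynomial (MvPolynomial σ ℂ))
      refine (congrArg (Gd f) (funext fun M => ?_)).mp h
      simp only [Polynomial.eval_sub, Polynomial.eval_X, Polynomial.eval_one,
        LinearMap.smul_apply, Module.End.one_apply]
      rw [MvPolynomial.smul_eq_C_mul, map_sub, map_natCast, map_one]
  | algebraMap r =>
    intro v hv
    have h := gd_mul hv (Polynomial.C (C r : MvPolynomial σ ℂ))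
    refine (congrArg (Gd f) (funext fun M => ?_)).mp h
    rw [Polynomial.eval_C, ← MvPolynomial.smul_eq_C_mul]
    rfl
  | add P Q _ _ hP hQ =>
    intro v hv
    exact gd_add (hP v hv) (hQ v hv)
  | mul P Q _ _ hP hQ =>
    intro v hv
    exact hP _ (hQ v hv)

/-- **ROOT**. -/
theorem t : Pool.Agent.Helper74.HG.ROOT := by
  intro σ _ f b hf hf0 hb
  obtain ⟨P, hP, h, hh, hfe⟩ := hb
  obtain ⟨m, g, hg⟩ := gd_op (f := f) hP (fun M => f ^ M) ⟨0, 1, fun M => by simp⟩
  -- the identity for `M ≥ 1`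
  have h1 : ∀ N : ℕ, C (b.eval (N : ℂ)) * h * f ^ m =
      f * g.eval (((N + 1 : ℕ)) : MvPolynomial σ ℂ) := by
    intro N
    have h2 := hg (N + 1)
    have e : ((N + 1 : ℕ) : ℂ) - 1 = N := by push_cast; ring
    simp only [e] at h2
    rw [hfe N] at h2
    have h3 : (C (b.eval (N : ℂ)) * h * f ^ m - f * g.eval (((N + 1 : ℕ)) : MvPolynomial σ ℂ)) *
        f ^ N = 0 := by
      rw [pow_succ f N] at h2
      linear_combination h2
    rcases mul_eq_zero.1 h3 with h4 | h4
    · exact sub_eq_zero.1 h4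
    · exact absurd h4 (pow_ne_zero N hf)
  -- the polynomial identity
  set G : Polynomial (MvPolynomial σ ℂ) :=
    ((b.comp (Polynomial.X - 1)).map (C : ℂ →+* MvPolynomial σ ℂ)) * Polynomial.C (h * f ^ m) -
      Polynomial.C f * g with hG
  have hev : ∀ M : ℕ, G.eval (M : MvPolynomial σ ℂ) =
      C (b.eval ((M : ℂ) - 1)) * (h * f ^ m) - f * g.eval (M : MvPolynomial σ ℂ) := by
    intro M
    rw [hG, Polynomial.eval_sub, Polynomial.eval_mul, Polynomial.eval_mul, Polynomial.eval_C,
      Polynomial.eval_C]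
    congr 2
    have e : (M : MvPolynomial σ ℂ) = (C : ℂ →+* MvPolynomial σ ℂ) (M : ℂ) := by
      rw [map_natCast]
    rw [e, Polynomial.eval_map_apply]
    simp
  have hG0 : G = 0 := by
    refine Polynomial.eq_zero_of_infinite_isRoot G ?_
    refine Set.Infinite.mono (s := Set.range fun N : ℕ => (((N + 1 : ℕ)) : MvPolynomial σ ℂ)) ?_ ?_
    · rintro _ ⟨N, rfl⟩
      rw [Set.mem_setOf_eq, Polynomial.IsRoot.def, hev (N + 1)]
      have e : ((N + 1 : ℕ) : ℂ) - 1 = N := by push_cast; ring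
      rw [e]
      linear_combination h1 N
    · refine Set.infinite_range_of_injective fun a b hab => ?_
      have := Nat.cast_injective (R := MvPolynomial σ ℂ) hab
      omega
  have h5 := hev 0
  rw [hG0, Polynomial.eval_zero] at h5
  have h6 := hg 0
  simp only [pow_zero, mul_one] at h6
  have h7 : (C (b.eval (-1)) * h - f * P (((0 : ℕ) : ℂ) - 1) 1) * f ^ m = 0 := by
    have e : ((0 : ℕ) : ℂ) - 1 = -1 := by simp
    rw [e] at h5 h6 ⊢
    linear_combination -h5 - f * h6
  have h8 : C (b.eval (-1)) * h = f * P (((0 : ℕ) : ℂ) - 1) 1 := by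
    rcases mul_eq_zero.1 h7 with h9 | h9
    · exact sub_eq_zero.1 h9
    · exact absurd h9 (pow_ne_zero m hf)
  have h9 := congrArg constantCoeff h8
  rw [map_mul, map_mul, hf0, zero_mul, constantCoeff_C] at h9
  exact (mul_eq_zero.1 h9).resolve_right hh

end Pool.Agent.Helper75.HG.ROOT
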